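import Mathlib

/-!
Powers of the inverse of an expanding integer matrix tend to zero.
-/

set_option autoImplicit false
open Filter Topology Matrix

namespace Pool.Agent.Y292

variable {d : ℕ}

/-- the real matrix of an integer matrix -/
noncomputable abbrev rM (R : Matrix (Fin d) (Fin d) ℤ) : Matrix (Fin d) (Fin d) ℝ :=
  R.map (Int.castRingHom ℝ)

def Expanding (R : Matrix (Fin d) (Fin d) ℤ) : Prop :=
  ∀ z : ℂ, (R.map (Int.castRingHom ℂ)).charpoly.IsRoot z → 1 < ‖z‖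

theorem det_ne_zero {R : Matrix (Fin d) (Fin d) ℤ} (hR : Expanding R) : R.det ≠ 0 := by
  intro h
  have h0 : (R.map (Int.castRingHom ℂ)).charpoly.IsRoot 0 := by
    rw [← Matrix.mem_spectrum_iff_isRoot_charpoly, spectrum.zero_mem_iff,
      Matrix.isUnit_iff_isUnit_det, isUnit_iff_ne_zero, not_not]
    have : (R.map (Int.castRingHom ℂ)).det = (Int.castRingHom ℂ) R.det := by
      rw [RingHom.map_det]; rfl
    rw [this, h, map_zero]
  have := hR 0 h0
  simp at this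
  linarith

theorem rdet_isUnit {R : Matrix (Fin d) (Fin d) ℤ} (hR : Expanding R) : IsUnit (rM R).det := by
  rw [isUnit_iff_ne_zero]
  have : (R.map (Int.castRingHom ℝ)).det = (Int.castRingHom ℝ) R.det := by
    rw [RingHom.map_det]; rfl
  rw [this]
  simpa using det_ne_zero hR

theorem cdet_isUnit {R : Matrix (Fin d) (Fin d) ℤ} (hR : Expanding R) :
    IsUnit (R.map (Int.castRingHom ℂ)).det := by
  rw [isUnit_iff_ne_zero]
  have : (R.map (Int.castRingHom ℂ)).det = (Int.castRingHom ℂ) R.det := by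
    rw [RingHom.map_det]; rfl
  rw [this]
  simpa using det_ne_zero hR

section
attribute [local instance] Matrix.linftyOpNormedRing Matrix.linftyOpNormedAlgebra

theorem tendsto_norm_pow {R : Matrix (Fin d) (Fin d) ℤ} (hR : Expanding R) :
    Tendsto (fun n : ℕ => ‖((R.map (Int.castRingHom ℂ))⁻¹) ^ n‖) atTop (𝓝 0) := by
  rcases Nat.eq_zero_or_pos d with rfl | hd
  · have : ∀ M : Matrix (Fin 0) (Fin 0) ℂ, ‖M‖ = 0 := by
      intro M
      have : M = 0 := Subsingleton.elim _ _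
      rw [this, norm_zero]
    simp only [this]
    exact tendsto_const_nhds
  have : Nonempty (Fin d) := ⟨⟨0, hd⟩⟩
  set C := R.map (Int.castRingHom ℂ) with hC
  set M := C⁻¹ with hM
  have : CompleteSpace (Matrix (Fin d) (Fin d) ℂ) := FiniteDimensional.complete ℂ _
  have hu := cdet_isUnit hR
  have hrad : spectralRadius ℂ M < ((1 : NNReal) : ENNReal) := by
    apply spectrum.spectralRadius_lt_of_forall_lt
    intro z hz
    -- z is an eigenvalue of M
    have hz0 : z ≠ 0 := by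
      rintro rfl
      rw [spectrum.zero_mem_iff] at hz
      apply hz
      rw [Matrix.isUnit_iff_isUnit_det, hM, Matrix.det_nonsing_inv]
      exact hu.ringInverse
    have h1 : z⁻¹ ∈ spectrum ℂ C := by
      rw [spectrum.mem_iff] at hz ⊢
      intro hun
      apply hz
      -- z - C⁻¹ = -z * (z⁻¹ - C) * C⁻¹
      have key : algebraMap ℂ (Matrix (Fin d) (Fin d) ℂ) z - M
          = (-(algebraMap ℂ (Matrix (Fin d) (Fin d) ℂ) z)) *
            (algebraMap ℂ (Matrix (Fin d) (Fin d) ℂ) z⁻¹ - C) * M := by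
        have hCM : C * M = 1 := Matrix.mul_nonsing_inv _ hu
        have hzz : algebraMap ℂ (Matrix (Fin d) (Fin d) ℂ) z *
            algebraMap ℂ (Matrix (Fin d) (Fin d) ℂ) z⁻¹ = 1 := by
          rw [← map_mul, mul_inv_cancel₀ hz0, map_one]
        rw [mul_sub, neg_mul, hzz, sub_mul, neg_mul, one_mul, neg_mul, neg_mul, mul_assoc, hCM,
          mul_one]
        abel
      rw [key]
      refine (IsUnit.mul (IsUnit.mul ?_ hun) ?_)
      · exact (((isUnit_iff_ne_zero.2 hz0).map (algebraMap ℂ (Matrix (Fin d) (Fin d) ℂ))).neg)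
      · rw [Matrix.isUnit_iff_isUnit_det, hM, Matrix.det_nonsing_inv]
        exact hu.ringInverse
    rw [Matrix.mem_spectrum_iff_isRoot_charpoly] at h1
    have h2 := hR _ h1
    rw [norm_inv] at h2
    have h3 : ‖z‖ < 1 := by
      by_contra h
      push Not at h
      have := inv_le_one_of_one_le₀ h
      linarith
    exact_mod_cast h3
  have hlim := spectrum.pow_nnnorm_pow_one_div_tendsto_nhds_spectralRadius M
  obtain ⟨r, hr1, hr2⟩ := ENNReal.lt_iff_exists_nnreal_btwn.1 hrad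
  have hr2' : (r : ℝ) < 1 := by exact_mod_cast hr2
  have hev : ∀ᶠ n : ℕ in atTop, ‖M ^ n‖ ≤ (r : ℝ) ^ n := by
    filter_upwards [hlim.eventually_lt_const hr1, eventually_gt_atTop 0] with n hn hn0
    have h4 : (((‖M ^ n‖₊ : NNReal) : ENNReal)) ≤ (r : ENNReal) ^ n := by
      have h1 := ENNReal.rpow_le_rpow hn.le (z := (n : ℝ)) (by positivity)
      rw [← ENNReal.rpow_mul, one_div, inv_mul_cancel₀ (by exact_mod_cast hn0.ne'),
        ENNReal.rpow_one, ENNReal.rpow_natCast] at h1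
      exact h1
    exact_mod_cast h4
  refine squeeze_zero' (Eventually.of_forall fun n => norm_nonneg _) hev ?_
  exact tendsto_pow_atTop_nhds_zero_of_lt_one r.coe_nonneg hr2'

end

theorem map_inv_pow (R : Matrix (Fin d) (Fin d) ℤ) (hR : Expanding R) (n : ℕ) :
    (R.map (Int.castRingHom ℂ))⁻¹ ^ n = ((rM R)⁻¹ ^ n).map (algebraMap ℝ ℂ) := by
  have h1 : R.map (Int.castRingHom ℂ) = (algebraMap ℝ ℂ).mapMatrix (rM R) := by
    ext i j; simp [rM]
  have hu := rdet_isUnit hR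
  have h2 : (R.map (Int.castRingHom ℂ))⁻¹ = (algebraMap ℝ ℂ).mapMatrix ((rM R)⁻¹) := by
    rw [h1]
    apply Matrix.inv_eq_right_inv
    rw [← map_mul, Matrix.mul_nonsing_inv _ hu, map_one]
  rw [h2, ← map_pow]
  rfl

theorem tendsto_entry {R : Matrix (Fin d) (Fin d) ℤ} (hR : Expanding R) (i j : Fin d) :
    Tendsto (fun n : ℕ => ((rM R)⁻¹ ^ n) i j) atTop (𝓝 0) := by
  let _ := Matrix.linftyOpNormedRing (n := Fin d) (α := ℂ)
  have h := tendsto_norm_pow hR
  have h2 : ∀ n : ℕ, |((rM R)⁻¹ ^ n) i j| ≤ ‖((R.map (Int.castRingHom ℂ))⁻¹) ^ n‖ := by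
    intro n
    rw [map_inv_pow R hR n]
    have h3 : |((rM R)⁻¹ ^ n) i j| = ‖(((rM R)⁻¹ ^ n).map (algebraMap ℝ ℂ)) i j‖ := by
      simp
    rw [h3]
    rw [Matrix.linfty_opNorm_def]
    have h4 : ‖(((rM R)⁻¹ ^ n).map (algebraMap ℝ ℂ)) i j‖₊ ≤
        ∑ j, ‖(((rM R)⁻¹ ^ n).map (algebraMap ℝ ℂ)) i j‖₊ :=
      Finset.single_le_sum (f := fun j => ‖(((rM R)⁻¹ ^ n).map (algebraMap ℝ ℂ)) i j‖₊)
        (fun _ _ => zero_le) (Finset.mem_univ j)
    have h5 : ∑ j, ‖(((rM R)⁻¹ ^ n).map (algebraMap ℝ ℂ)) i j‖₊ ≤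
        Finset.univ.sup fun i => ∑ j, ‖(((rM R)⁻¹ ^ n).map (algebraMap ℝ ℂ)) i j‖₊ :=
      Finset.le_sup (f := fun i => ∑ j, ‖(((rM R)⁻¹ ^ n).map (algebraMap ℝ ℂ)) i j‖₊)
        (Finset.mem_univ i)
    exact_mod_cast h4.trans h5
  exact squeeze_zero_norm (fun n => by simpa using h2 n) h

/-- for every `ε` the maps `x ↦ A ^ n x` with `n` large contract by `ε` in the sup norm -/
theorem exists_contr {R : Matrix (Fin d) (Fin d) ℤ} (hR : Expanding R) (ε : ℝ) (hε : 0 < ε) :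
    ∃ N : ℕ, ∀ n ≥ N, ∀ x : Fin d → ℝ, ‖((rM R)⁻¹ ^ n) *ᵥ x‖ ≤ ε * ‖x‖ := by
  have hs : Tendsto (fun n : ℕ => ∑ i, ∑ j, |((rM R)⁻¹ ^ n) i j|) atTop (𝓝 0) := by
    have : (0 : ℝ) = ∑ i : Fin d, ∑ j : Fin d, (0 : ℝ) := by simp
    rw [this]
    refine tendsto_finsetSum _ fun i _ => tendsto_finsetSum _ fun j _ => ?_
    have := (tendsto_entry hR i j).abs
    simpa using this
  obtain ⟨N, hN⟩ := eventually_atTop.1 (hs.eventually_lt_const hε)
  refine ⟨N, fun n hn x => ?_⟩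
  have h1 := hN n hn
  rw [pi_norm_le_iff_of_nonneg (by positivity)]
  intro i
  have h2 : ‖(((rM R)⁻¹ ^ n) *ᵥ x) i‖ ≤ ∑ j, |((rM R)⁻¹ ^ n) i j| * ‖x‖ := by
    simp only [Matrix.mulVec, dotProduct]
    refine (norm_sum_le _ _).trans (Finset.sum_le_sum fun j _ => ?_)
    rw [norm_mul, Real.norm_eq_abs]
    exact mul_le_mul_of_nonneg_left (norm_le_pi_norm x j) (abs_nonneg _)
  refine h2.trans ?_
  rw [← Finset.sum_mul]
  refine mul_le_mul_of_nonneg_right ?_ (norm_nonneg _)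
  refine le_trans ?_ h1.le
  exact Finset.single_le_sum (f := fun i => ∑ j, |((rM R)⁻¹ ^ n) i j|)
    (fun i _ => Finset.sum_nonneg fun j _ => abs_nonneg _) (Finset.mem_univ i)

end Pool.Agent.Y292
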