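import Pool.Agent.Y292.ExpMat

/-!
Iterates of an integral affine iterated function system and their invariant measure.
-/

set_option autoImplicit false
open Filter Topology Matrix MeasureTheory
open scoped ENNReal

namespace Pool.Agent.Y292

variable {d : ℕ}

/-- an integer vector as a real vector -/
def cst (b : Fin d → ℤ) : Fin d → ℝ := fun i => (b i : ℝ)

theorem cst_add (a b : Fin d → ℤ) : cst (a + b) = cst a + cst b := by
  ext i; simp [cst]

theorem cst_mulVec (R : Matrix (Fin d) (Fin d) ℤ) (b : Fin d → ℤ) :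
    cst (R *ᵥ b) = rM R *ᵥ cst b := by
  ext i; simp [cst, Matrix.mulVec, dotProduct, rM]

theorem cst_injective : Function.Injective (cst : (Fin d → ℤ) → (Fin d → ℝ)) := by
  intro a b h
  ext i
  have := congrFun h i
  simpa [cst] using this

/-- the translation vector of a word -/
def tr (R : Matrix (Fin d) (Fin d) ℤ) {B : Finset (Fin d → ℤ)} {n : ℕ} (w : Fin n → B) :
    Fin d → ℤ := ∑ k : Fin n, (R ^ (k : ℕ)) *ᵥ (w k : Fin d → ℤ)

/-- the map of a word -/
noncomputable def tau (R : Matrix (Fin d) (Fin d) ℤ) {B : Finset (Fin d → ℤ)} {n : ℕ}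
    (w : Fin n → B) (x : Fin d → ℝ) : Fin d → ℝ := ((rM R)⁻¹ ^ n) *ᵥ (x + cst (tr R w))

/-- the maps of the system -/
noncomputable def phi (R : Matrix (Fin d) (Fin d) ℤ) (b : Fin d → ℤ) (x : Fin d → ℝ) :
    Fin d → ℝ := (rM R)⁻¹ *ᵥ (x + cst b)

variable {R : Matrix (Fin d) (Fin d) ℤ} {B : Finset (Fin d → ℤ)}

theorem tr_cons {n : ℕ} (b : B) (w : Fin n → B) :
    tr R (Fin.cons b w : Fin (n + 1) → B) = (b : Fin d → ℤ) + R *ᵥ tr R w := by
  unfold tr
  rw [Fin.sum_univ_succ]
  simp only [Fin.val_zero, pow_zero, Matrix.one_mulVec, Fin.cons_zero, Fin.cons_succ, Fin.val_succ]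
  congr 1
  rw [Matrix.mulVec_sum]
  refine Finset.sum_congr rfl fun k _ => ?_
  rw [Matrix.mulVec_mulVec, ← pow_succ']

theorem tau_cons (hR : Expanding R) {n : ℕ} (b : B) (w : Fin n → B) (x : Fin d → ℝ) :
    tau R (Fin.cons b w : Fin (n + 1) → B) x = tau R w (phi R b x) := by
  unfold tau phi
  rw [tr_cons, cst_add, cst_mulVec, pow_succ, ← Matrix.mulVec_mulVec]
  congr 1
  rw [← add_assoc, Matrix.mulVec_add]
  congr 1
  rw [Matrix.mulVec_mulVec, Matrix.nonsing_inv_mul _ (rdet_isUnit hR), Matrix.one_mulVec]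

theorem continuous_mulVec' (M : Matrix (Fin d) (Fin d) ℝ) :
    Continuous fun x : Fin d → ℝ => M *ᵥ x := by
  exact Continuous.matrix_mulVec continuous_const continuous_id

theorem continuous_tau {n : ℕ} (w : Fin n → B) : Continuous (tau R w) := by
  unfold tau
  exact (continuous_mulVec' _).comp (continuous_id.add continuous_const)

theorem continuous_phi (b : Fin d → ℤ) : Continuous (phi R b) := by
  unfold phi
  exact (continuous_mulVec' _).comp (continuous_id.add continuous_const)

theorem rM_pow_mul (hR : Expanding R) (n : ℕ) : (rM R) ^ n * ((rM R)⁻¹ ^ n) = 1 := by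
  have hc : Commute (rM R) ((rM R)⁻¹) := by
    unfold Commute SemiconjBy
    rw [Matrix.mul_nonsing_inv _ (rdet_isUnit hR), Matrix.nonsing_inv_mul _ (rdet_isUnit hR)]
  rw [← hc.mul_pow, Matrix.mul_nonsing_inv _ (rdet_isUnit hR), one_pow]

theorem mul_rM_pow (hR : Expanding R) (n : ℕ) : ((rM R)⁻¹ ^ n) * (rM R) ^ n = 1 := by
  have hc : Commute ((rM R)⁻¹) (rM R) := by
    unfold Commute SemiconjBy
    rw [Matrix.mul_nonsing_inv _ (rdet_isUnit hR), Matrix.nonsing_inv_mul _ (rdet_isUnit hR)]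
  rw [← hc.mul_pow, Matrix.nonsing_inv_mul _ (rdet_isUnit hR), one_pow]

theorem tau_injective (hR : Expanding R) {n : ℕ} (w : Fin n → B) :
    Function.Injective (tau R w) := by
  intro x y h
  unfold tau at h
  have h2 := congrArg (fun v => (rM R) ^ n *ᵥ v) h
  simp only [Matrix.mulVec_mulVec, rM_pow_mul hR, Matrix.one_mulVec] at h2
  exact add_right_cancel h2

theorem phi_injective (hR : Expanding R) (b : Fin d → ℤ) : Function.Injective (phi R b) := by
  intro x y h
  unfold phi at h
  have h2 := congrArg (fun v => (rM R) *ᵥ v) h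
  simp only [Matrix.mulVec_mulVec, Matrix.mul_nonsing_inv _ (rdet_isUnit hR),
    Matrix.one_mulVec] at h2
  exact add_right_cancel h2

/-- the self-affine identity -/
def SelfAff (R : Matrix (Fin d) (Fin d) ℤ) (B : Finset (Fin d → ℤ))
    (μ : Measure (Fin d → ℝ)) : Prop :=
  μ = ∑ b ∈ B, ((B.card : ENNReal)⁻¹) • μ.map (phi R b)

theorem SelfAff.apply {μ : Measure (Fin d → ℝ)} (h : SelfAff R B μ) {G : Set (Fin d → ℝ)}
    (hG : MeasurableSet G) :
    μ G = ∑ b : B, (B.card : ENNReal)⁻¹ * μ (phi R b ⁻¹' G) := by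
  conv_lhs => rw [h]
  rw [Measure.finsetSum_apply]
  rw [← Finset.sum_coe_sort B (fun b => (((B.card : ENNReal)⁻¹) • μ.map (phi R b)) G)]
  refine Finset.sum_congr rfl fun b _ => ?_
  rw [Measure.smul_apply, smul_eq_mul, Measure.map_apply (continuous_phi _).measurable hG]

theorem SelfAff.rep {μ : Measure (Fin d → ℝ)} (hR : Expanding R) (h : SelfAff R B μ) (n : ℕ)
    {G : Set (Fin d → ℝ)} (hG : MeasurableSet G) :
    μ G = ∑ w : Fin n → B, ((B.card : ENNReal)⁻¹) ^ n * μ (tau R w ⁻¹' G) := by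
  induction n with
  | zero =>
    rw [Fintype.sum_unique]
    simp only [pow_zero, one_mul]
    congr 1
    have hz : cst (0 : Fin d → ℤ) = 0 := by ext i; simp [cst]
    ext x
    simp [tau, tr, hz]
  | succ n ih =>
    rw [ih]
    have e := (Equiv.sum_comp (Fin.consEquiv (fun _ : Fin (n + 1) => B))
      (fun w : Fin (n + 1) → B => ((B.card : ENNReal)⁻¹) ^ (n + 1) * μ (tau R w ⁻¹' G))).symm
    rw [e, Fintype.sum_prod_type_right]
    refine Finset.sum_congr rfl fun w _ => ?_
    have hm : MeasurableSet (tau R w ⁻¹' G) := (continuous_tau w).measurable hG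
    rw [h.apply hm, Finset.mul_sum]
    refine Finset.sum_congr rfl fun b _ => ?_
    rw [← mul_assoc, ← pow_succ]
    congr 2
    ext x
    simp only [Set.mem_preimage]
    rw [show (Fin.consEquiv fun _ : Fin (n + 1) => (B : Type _)) (b, w) = Fin.cons b w from rfl,
      tau_cons hR]

end Pool.Agent.Y292
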