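import Pool.Agent.Y292.SpecA

/-!
If all words of equal length have distinct translation vectors, then the first level pieces of the
attractor overlap in a null set.
-/

set_option autoImplicit false
open Filter Topology Matrix MeasureTheory
open scoped ENNReal

namespace Pool.Agent.Y292

variable {d : ℕ} {R : Matrix (Fin d) (Fin d) ℤ} {B : Finset (Fin d → ℤ)}

theorem card_le (hR : Expanding R) {T : Set (Fin d → ℝ)} {K : ℕ} (hT : ∀ x ∈ T, ‖x‖ ≤ K) {n : ℕ}
    (hinj : Function.Injective (fun w : Fin n → B => tr R w)) (x : Fin d → ℝ)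
    [DecidablePred fun w : Fin n → B => x ∈ tau R w '' T] :
    (Finset.univ.filter fun w : Fin n → B => x ∈ tau R w '' T).card ≤ (4 * K + 1) ^ d := by
  classical
  rcases (Finset.univ.filter fun w : Fin n → B => x ∈ tau R w '' T).eq_empty_or_nonempty with h | h
  · rw [h]; simp
  obtain ⟨w0, hw0⟩ := h
  have hkey : ∀ w : Fin n → B, x ∈ tau R w '' T → ∃ y ∈ T, cst (tr R w) = (rM R) ^ n *ᵥ x - y := by
    rintro w ⟨y, hy, rfl⟩
    refine ⟨y, hy, ?_⟩
    unfold tau
    rw [Matrix.mulVec_mulVec, rM_pow_mul hR, Matrix.one_mulVec]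
    abel
  obtain ⟨y0, hy0, e0⟩ := hkey w0 (Finset.mem_filter.1 hw0).2
  calc (Finset.univ.filter fun w : Fin n → B => x ∈ tau R w '' T).card
      ≤ (Finset.Icc (fun i => tr R w0 i - 2 * K) (fun i => tr R w0 i + 2 * K) :
          Finset (Fin d → ℤ)).card := by
        apply Finset.card_le_card_of_injOn (fun w => tr R w)
        · intro w hw
          have hw' := (Finset.mem_filter.1 hw).2
          obtain ⟨y, hy, e⟩ := hkey w hw'
          have h1 : ∀ i, |(tr R w i : ℝ) - tr R w0 i| ≤ 2 * K := by
            intro i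
            have h2 : (tr R w i : ℝ) = ((rM R) ^ n *ᵥ x) i - y i := congrFun e i
            have h3 : (tr R w0 i : ℝ) = ((rM R) ^ n *ᵥ x) i - y0 i := congrFun e0 i
            rw [h2, h3]
            have h4 := (norm_le_pi_norm y i).trans (hT y hy)
            have h5 := (norm_le_pi_norm y0 i).trans (hT y0 hy0)
            rw [Real.norm_eq_abs] at h4 h5
            rw [abs_le] at *
            constructor <;> linarith [h4.1, h4.2, h5.1, h5.2]
          have h6 : ∀ i, |tr R w i - tr R w0 i| ≤ 2 * K := by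
            intro i
            exact_mod_cast h1 i
          simp only [Finset.coe_Icc, Set.mem_Icc, Pi.le_def]
          constructor
          · intro i; have := abs_le.1 (h6 i); linarith [this.1]
          · intro i; have := abs_le.1 (h6 i); linarith [this.2]
        · exact hinj.injOn
    _ = (4 * K + 1) ^ d := by
        rw [Pi.card_Icc]
        simp only [Int.card_Icc]
        rw [Finset.prod_congr rfl (fun i _ => show (tr R w0 i + 2 * (K : ℤ) + 1 -
          (tr R w0 i - 2 * K)).toNat = 4 * K + 1 by omega)]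
        simp

theorem sum_measure_ge {μ : Measure (Fin d → ℝ)} (G : B → Set (Fin d → ℝ))
    (hG : ∀ b, MeasurableSet (G b)) (b1 b2 : B) (hb : b1 ≠ b2) :
    μ (⋃ b, G b) + μ (G b1 ∩ G b2) ≤ ∑ b, μ (G b) := by
  classical
  have h1 : (⋃ b, G b) ⊆ (G b1 ∪ G b2) ∪ ⋃ b ∈ (Finset.univ.erase b1).erase b2, G b := by
    intro x hx
    obtain ⟨b, hb'⟩ := Set.mem_iUnion.1 hx
    by_cases h1 : b = b1
    · subst h1; exact Or.inl (Or.inl hb')
    by_cases h2 : b = b2
    · subst h2; exact Or.inl (Or.inr hb')
    refine Or.inr ?_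
    simp only [Set.mem_iUnion]
    exact ⟨b, by simp [h1, h2], hb'⟩
  have h2 : μ (⋃ b, G b) ≤ μ (G b1 ∪ G b2) + ∑ b ∈ (Finset.univ.erase b1).erase b2, μ (G b) := by
    refine (measure_mono h1).trans ((measure_union_le _ _).trans ?_)
    gcongr
    exact measure_biUnion_finset_le _ _
  have h3 : ∑ b, μ (G b) = μ (G b1) + (μ (G b2) +
      ∑ b ∈ (Finset.univ.erase b1).erase b2, μ (G b)) := by
    rw [Finset.add_sum_erase _ (fun b => μ (G b)) (by simp [hb.symm]),
      Finset.add_sum_erase _ (fun b => μ (G b)) (Finset.mem_univ b1)]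
  rw [h3]
  calc μ (⋃ b, G b) + μ (G b1 ∩ G b2)
      ≤ (μ (G b1 ∪ G b2) + ∑ b ∈ (Finset.univ.erase b1).erase b2, μ (G b)) + μ (G b1 ∩ G b2) := by
        gcongr
    _ = (μ (G b1 ∪ G b2) + μ (G b1 ∩ G b2)) + ∑ b ∈ (Finset.univ.erase b1).erase b2, μ (G b) := by
        abel
    _ = _ := by
        rw [measure_union_add_inter _ (hG b2)]
        abel

theorem card_ne_zero {μ : Measure (Fin d → ℝ)} [IsProbabilityMeasure μ] (h : SelfAff R B μ) :
    B.card ≠ 0 := by
  intro h0
  rw [Finset.card_eq_zero] at h0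
  subst h0
  have : μ = 0 := by rw [h]; simp
  exact IsProbabilityMeasure.ne_zero μ this

theorem measure_image_ge {μ : Measure (Fin d → ℝ)} (hR : Expanding R) (h : SelfAff R B μ) {n : ℕ}
    (w : Fin n → B) {G : Set (Fin d → ℝ)} (hG : IsCompact G) :
    ((B.card : ENNReal)⁻¹) ^ n * μ G ≤ μ (tau R w '' G) := by
  have hm : MeasurableSet (tau R w '' G) := (hG.image (continuous_tau w)).measurableSet
  rw [h.rep hR n hm]
  calc ((B.card : ENNReal)⁻¹) ^ n * μ G
      ≤ ((B.card : ENNReal)⁻¹) ^ n * μ (tau R w ⁻¹' (tau R w '' G)) := by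
        gcongr
        exact Set.subset_preimage_image _ _
    _ ≤ _ := Finset.single_le_sum
        (f := fun v : Fin n → B => ((B.card : ENNReal)⁻¹) ^ n * μ (tau R v ⁻¹' (tau R w '' G)))
        (fun _ _ => zero_le) (Finset.mem_univ w)

theorem no_overlap_of_injective {μ : Measure (Fin d → ℝ)} [IsProbabilityMeasure μ]
    (hR : Expanding R) (h : SelfAff R B μ) {T : Set (Fin d → ℝ)} (hT : IsCompact T)
    (hTB : T = ⋃ b ∈ B, phi R b '' T)
    (hinj : ∀ n, Function.Injective (fun w : Fin n → B => tr R w))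
    {b1 b2 : Fin d → ℤ} (hb1 : b1 ∈ B) (hb2 : b2 ∈ B) (hne : b1 ≠ b2) :
    μ (phi R b1 '' T ∩ phi R b2 '' T) = 0 := by
  classical
  have hN := card_ne_zero h
  have hN' : (B.card : ENNReal) ≠ 0 := by exact_mod_cast hN
  have hNt : (B.card : ENNReal) ≠ ⊤ := ENNReal.natCast_ne_top _
  obtain ⟨K, hK⟩ : ∃ K : ℕ, ∀ x ∈ T, ‖x‖ ≤ K := by
    obtain ⟨C, hC⟩ := hT.isBounded.exists_norm_le
    obtain ⟨K, hK⟩ := exists_nat_ge C
    exact ⟨K, fun x hx => (hC x hx).trans hK⟩
  set A : Set (Fin d → ℝ) := phi R b1 '' T ∩ phi R b2 '' T with hA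
  have hAc : IsCompact A :=
    (hT.image (continuous_phi b1)).inter (hT.image (continuous_phi b2))
  have hmeas : ∀ {n : ℕ} (w : Fin n → B), MeasurableSet (tau R w '' T) := fun w =>
    (hT.image (continuous_tau w)).measurableSet
  -- the sums of the measures of the pieces
  have hupper : ∀ n : ℕ, ∑ w : Fin n → B, μ (tau R w '' T) ≤ ((4 * K + 1) ^ d : ℕ) := by
    intro n
    calc ∑ w : Fin n → B, μ (tau R w '' T)
        = ∑ w : Fin n → B, ∫⁻ x, (tau R w '' T).indicator 1 x ∂μ := by
          refine Finset.sum_congr rfl fun w _ => ?_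
          rw [lintegral_indicator_one (hmeas w)]
      _ = ∫⁻ x, ∑ w : Fin n → B, (tau R w '' T).indicator 1 x ∂μ := by
          rw [lintegral_finsetSum]
          intro w _
          exact measurable_one.indicator (hmeas w)
      _ ≤ ∫⁻ _, (((4 * K + 1) ^ d : ℕ) : ENNReal) ∂μ := by
          refine lintegral_mono fun x => ?_
          have hx := card_le hR hK (hinj n) x
          calc ∑ w : Fin n → B, (tau R w '' T).indicator (1 : (Fin d → ℝ) → ENNReal) x
              = ((Finset.univ.filter fun w : Fin n → B => x ∈ tau R w '' T).card : ENNReal) := by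
                rw [Finset.card_eq_sum_ones, Finset.sum_filter]
                push_cast
                refine Finset.sum_congr rfl fun w _ => ?_
                simp [Set.indicator_apply]
            _ ≤ _ := by exact_mod_cast hx
      _ = _ := by simp
  have hlower : ∀ n : ℕ, (n : ENNReal) * μ A ≤ ∑ w : Fin n → B, μ (tau R w '' T) := by
    intro n
    induction n with
    | zero => simp
    | succ n ih =>
      have e := (Equiv.sum_comp (Fin.consEquiv (fun _ : Fin (n + 1) => B))
        (fun w : Fin (n + 1) → B => μ (tau R w '' T))).symm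
      rw [e, Fintype.sum_prod_type_right]
      have h1 : ∀ w : Fin n → B, μ (tau R w '' T) + ((B.card : ENNReal)⁻¹) ^ n * μ A ≤
          ∑ b : B, μ (tau R ((Fin.consEquiv (fun _ : Fin (n + 1) => (B : Type _))) (b, w)) '' T) := by
        intro w
        have h2 : ∀ b : B, tau R ((Fin.consEquiv (fun _ : Fin (n + 1) => (B : Type _))) (b, w)) '' T
            = tau R w '' (phi R b '' T) := by
          intro b
          rw [Set.image_image]
          refine Set.image_congr fun x _ => ?_
          rw [show (Fin.consEquiv fun _ : Fin (n + 1) => (B : Type _)) (b, w) = Fin.cons b w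
            from rfl, tau_cons hR]
        simp only [h2]
        have h3 := sum_measure_ge (μ := μ) (fun b : B => tau R w '' (phi R b '' T))
          (fun b => ((hT.image (continuous_phi _)).image (continuous_tau w)).measurableSet)
          ⟨b1, hb1⟩ ⟨b2, hb2⟩ (by simpa using hne)
        refine le_trans ?_ h3
        have h4 : (⋃ b : B, tau R w '' (phi R b '' T)) = tau R w '' T := by
          rw [← Set.image_iUnion]
          congr 1
          conv_rhs => rw [hTB]
          rw [Set.iUnion_subtype]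
        rw [h4, ← Set.image_inter (tau_injective hR w)]
        gcongr
        exact measure_image_ge hR h w hAc
      calc ((n + 1 : ℕ) : ENNReal) * μ A = (n : ENNReal) * μ A + μ A := by push_cast; ring
        _ ≤ ∑ w : Fin n → B, μ (tau R w '' T) + ∑ w : Fin n → B, ((B.card : ENNReal)⁻¹) ^ n * μ A := by
            refine add_le_add ih (le_of_eq ?_)
            rw [Finset.sum_const, Finset.card_univ, Fintype.card_fun, Fintype.card_coe,
              Fintype.card_fin, nsmul_eq_mul, ← mul_assoc]
            push_cast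
            rw [← mul_pow, ENNReal.mul_inv_cancel hN' hNt, one_pow, one_mul]
        _ = ∑ w : Fin n → B, (μ (tau R w '' T) + ((B.card : ENNReal)⁻¹) ^ n * μ A) := by
            rw [Finset.sum_add_distrib]
        _ ≤ _ := Finset.sum_le_sum fun w _ => h1 w
  by_contra hne0
  have h5 : ∀ n : ℕ, (n : ENNReal) * μ A ≤ ((4 * K + 1) ^ d : ℕ) := fun n =>
    (hlower n).trans (hupper n)
  have h6 : (((4 * K + 1) ^ d : ℕ) : ENNReal) / μ A ≠ ⊤ :=
    (ENNReal.div_lt_top (ENNReal.natCast_ne_top _) hne0).ne
  obtain ⟨n, hn⟩ := ENNReal.exists_nat_gt h6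
  have h7 := h5 n
  rw [← ENNReal.le_div_iff_mul_le (Or.inl hne0) (Or.inl (measure_ne_top μ A))] at h7
  exact absurd h7 (not_le.2 hn)

end Pool.Agent.Y292
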