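import Pool.Agent.Y292.SpecB

/-!
A spectral measure admits no translation which doubles the mass of all subsets of a set of positive
measure.
-/

set_option autoImplicit false
open Filter Topology Matrix MeasureTheory
open scoped ENNReal

namespace Pool.Agent.Y292

variable {d : ℕ}

/-- the exponential with frequency `l` -/
noncomputable def chi (l : Fin d → ℝ) (x : Fin d → ℝ) : ℂ :=
  Complex.exp (2 * Real.pi * Complex.I * ((∑ i, l i * x i : ℝ) : ℂ))

theorem chi_add (l x a : Fin d → ℝ) : chi l (x + a) = chi l x * chi l a := by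
  unfold chi
  rw [← Complex.exp_add]
  congr 1
  rw [← mul_add, ← Complex.ofReal_add, ← Finset.sum_add_distrib]
  congr 3
  funext i
  simp [mul_add]

theorem norm_chi (l x : Fin d → ℝ) : ‖chi l x‖ = 1 := by
  unfold chi
  rw [show (2 * Real.pi * Complex.I * ((∑ i, l i * x i : ℝ) : ℂ)) =
    ((2 * Real.pi * ∑ i, l i * x i : ℝ) : ℂ) * Complex.I by push_cast; ring]
  exact Complex.norm_exp_ofReal_mul_I _

theorem continuous_chi (l : Fin d → ℝ) : Continuous (chi l) := by
  unfold chi
  fun_prop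

/-- the spectral property -/
def Spectral (μ : Measure (Fin d → ℝ)) : Prop :=
  ∃ (Λ : Set (Fin d → ℝ)) (e : Λ → MeasureTheory.Lp ℂ 2 μ),
    (∀ l : Λ, (e l : (Fin d → ℝ) → ℂ) =ᵐ[μ] chi (l : Fin d → ℝ)) ∧
    Orthonormal ℂ e ∧ (Submodule.span ℂ (Set.range e)).topologicalClosure = ⊤

theorem parseval_eq {μ : Measure (Fin d → ℝ)} {Λ : Set (Fin d → ℝ)}
    {e : Λ → MeasureTheory.Lp ℂ 2 μ} (ho : Orthonormal ℂ e)
    (hd : (Submodule.span ℂ (Set.range e)).topologicalClosure = ⊤)
    (f g : MeasureTheory.Lp ℂ 2 μ) (h : ∀ l, ‖inner ℂ (e l) f‖ = ‖inner ℂ (e l) g‖) :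
    inner ℂ f f = inner ℂ g g := by
  let b := HilbertBasis.mk ho hd.ge
  have hb : ∀ l, b l = e l := fun l => by
    rw [HilbertBasis.coe_mk]
  have key : ∀ f : MeasureTheory.Lp ℂ 2 μ, ∀ l, inner ℂ f (b l) * inner ℂ (b l) f =
      ((‖inner ℂ (e l) f‖ ^ 2 : ℝ) : ℂ) := by
    intro f l
    rw [hb, ← inner_conj_symm f (e l)]
    rw [← Complex.normSq_eq_conj_mul_self, Complex.normSq_eq_norm_sq]
  rw [← HilbertBasis.tsum_inner_mul_inner b f f, ← HilbertBasis.tsum_inner_mul_inner b g g]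
  refine tsum_congr fun l => ?_
  rw [key, key, h]

theorem no_doubling {μ : Measure (Fin d → ℝ)} [IsProbabilityMeasure μ] (hs : Spectral μ)
    {F : Set (Fin d → ℝ)} (hF : MeasurableSet F) (hFpos : 0 < μ F) (a : Fin d → ℝ)
    (hdbl : ∀ G, MeasurableSet G → G ⊆ F → 2 * μ G ≤ μ ((fun y => y - a) ⁻¹' G)) : False := by
  obtain ⟨Λ, e, he, ho, hd⟩ := hs
  obtain ⟨ν, hν⟩ : ∃ ν : Measure (Fin d → ℝ), ν = (μ.restrict F).map (fun x => x + a) := ⟨_, rfl⟩
  have hma : Measurable (fun x : Fin d → ℝ => x + a) := measurable_id.add_const a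
  have hms : Measurable (fun x : Fin d → ℝ => x - a) := measurable_id.sub_const a
  have hνfin : IsFiniteMeasure ν := by rw [hν]; infer_instance
  have hdec : ν.HaveLebesgueDecomposition μ := Measure.haveLebesgueDecomposition_of_finiteMeasure
  have hle : (2 : NNReal) • ν ≤ μ := by
    rw [Measure.le_iff]
    intro s hs
    have h1 : ν s = μ ((fun x => x + a) ⁻¹' s ∩ F) := by
      rw [hν, Measure.map_apply hma hs, Measure.restrict_apply (hma hs)]
    rw [Measure.smul_apply, h1]
    have h2 := hdbl ((fun x => x + a) ⁻¹' s ∩ F) ((hma hs).inter hF) Set.inter_subset_right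
    have h3 : ((2 : NNReal) • μ ((fun x => x + a) ⁻¹' s ∩ F) : ENNReal)
        = 2 * μ ((fun x => x + a) ⁻¹' s ∩ F) := by
      rw [ENNReal.smul_def, smul_eq_mul]; rfl
    rw [h3]
    refine h2.trans (measure_mono ?_)
    rintro y ⟨hy, -⟩
    simpa using hy
  have hνle : ν ≤ μ := by
    refine le_trans ?_ hle
    rw [Measure.le_iff]
    intro s _
    rw [Measure.smul_apply, ENNReal.smul_def, smul_eq_mul]
    calc ν s = 1 * ν s := (one_mul _).symm
      _ ≤ ((2 : NNReal) : ENNReal) * ν s := by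
        gcongr
        exact_mod_cast (one_le_two : (1 : NNReal) ≤ 2)
  have hνμ : ν ≪ μ := hνle.absolutelyContinuous
  have hbound : ∀ᵐ x ∂μ, (ν.rnDeriv μ x).toReal ≤ 1 / 2 := by
    have h1 := Measure.rnDeriv_le_one_of_le hle
    have h2 := Measure.rnDeriv_smul_left ν μ 2
    filter_upwards [h1, h2] with x hx1 hx2
    rw [hx2] at hx1
    simp only [Pi.smul_apply, Pi.one_apply] at hx1
    rw [ENNReal.smul_def, smul_eq_mul] at hx1
    have h3 : (((2 : NNReal) : ENNReal) * ν.rnDeriv μ x).toReal ≤ 1 := by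
      refine (ENNReal.toReal_mono ENNReal.one_ne_top hx1).trans ?_
      simp
    rw [ENNReal.toReal_mul] at h3
    have h4 : (((2 : NNReal) : ENNReal)).toReal = 2 := by simp
    rw [h4] at h3
    linarith
  set k : (Fin d → ℝ) → ℝ := fun x => (ν.rnDeriv μ x).toReal with hk
  have hkm : Measurable k := (Measure.measurable_rnDeriv ν μ).ennreal_toReal
  have hk0 : ∀ x, 0 ≤ k x := fun x => ENNReal.toReal_nonneg
  have hkint : ∀ f : (Fin d → ℝ) → ℂ, ∫ x, (k x : ℂ) * f x ∂μ = ∫ x, f x ∂ν := by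
    intro f
    rw [← integral_rnDeriv_smul hνμ]
    rfl
  have hkL : MemLp (fun x => (k x : ℂ)) 2 μ := by
    refine MemLp.of_bound (Complex.measurable_ofReal.comp hkm).aestronglyMeasurable (1 / 2) ?_
    filter_upwards [hbound] with x hx
    rw [Complex.norm_real, Real.norm_eq_abs, abs_of_nonneg (hk0 x)]
    exact hx
  set fk : MeasureTheory.Lp ℂ 2 μ := hkL.toLp _ with hfk
  set fF : MeasureTheory.Lp ℂ 2 μ := indicatorConstLp 2 hF (measure_ne_top μ F) (1 : ℂ) with hfF
  have hfk' : (fk : (Fin d → ℝ) → ℂ) =ᵐ[μ] fun x => (k x : ℂ) := hkL.coeFn_toLp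
  have hfF' : (fF : (Fin d → ℝ) → ℂ) =ᵐ[μ] F.indicator fun _ => (1 : ℂ) :=
    indicatorConstLp_coeFn
  have hnu_int : ∀ f : (Fin d → ℝ) → ℂ, Continuous f →
      ∫ x, f x ∂ν = ∫ x in F, f (x + a) ∂μ := by
    intro f hf
    rw [hν, integral_map hma.aemeasurable hf.aestronglyMeasurable]
  have hinner : ∀ l, ‖inner ℂ (e l) fF‖ = ‖inner ℂ (e l) fk‖ := by
    intro l
    have h1 : inner ℂ (e l) fF = ∫ x in F, (starRingEnd ℂ) (chi (l : Fin d → ℝ) x) ∂μ := by
      rw [L2.inner_def, ← integral_indicator hF]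
      refine integral_congr_ae ?_
      filter_upwards [he l, hfF'] with x hx1 hx2
      rw [hx1, hx2]
      by_cases hxF : x ∈ F
      · simp [hxF]
      · simp [hxF]
    have h2 : inner ℂ (e l) fk = ∫ x, (k x : ℂ) * (starRingEnd ℂ) (chi (l : Fin d → ℝ) x) ∂μ := by
      rw [L2.inner_def]
      refine integral_congr_ae ?_
      filter_upwards [he l, hfk'] with x hx1 hx2
      rw [hx1, hx2]
      simp
    rw [h1, h2, hkint, hnu_int (fun x => (starRingEnd ℂ) (chi (l : Fin d → ℝ) x))
      (Complex.continuous_conj.comp (continuous_chi _))]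
    have h3 : ∀ x, (starRingEnd ℂ) (chi (l : Fin d → ℝ) (x + a)) =
        (starRingEnd ℂ) (chi (l : Fin d → ℝ) a) * (starRingEnd ℂ) (chi (l : Fin d → ℝ) x) := by
      intro x
      rw [chi_add, map_mul, mul_comm]
    simp only [h3]
    rw [integral_const_mul, norm_mul]
    have h4 : ‖(starRingEnd ℂ) (chi (l : Fin d → ℝ) a)‖ = 1 := by
      rw [RCLike.norm_conj, norm_chi]
    rw [h4, one_mul]
  have hpars := parseval_eq ho hd fF fk hinner
  have e1 : inner ℂ fF fF = ((μ.real F : ℝ) : ℂ) := by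
    rw [L2.inner_def]
    have : ∫ x, inner ℂ (fF x) (fF x) ∂μ = ∫ x, F.indicator (fun _ => (1 : ℂ)) x ∂μ := by
      refine integral_congr_ae ?_
      filter_upwards [hfF'] with x hx2
      rw [hx2]
      by_cases hxF : x ∈ F
      · simp [hxF]
      · simp [hxF]
    rw [this, integral_indicator hF]
    simp [Measure.real]
  have e2 : inner ℂ fk fk = ((∫ x, k x ^ 2 ∂μ : ℝ) : ℂ) := by
    rw [L2.inner_def, ← integral_complex_ofReal]
    refine integral_congr_ae ?_
    filter_upwards [hfk'] with x hx2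
    rw [hx2]
    simp only [RCLike.inner_apply, Complex.conj_ofReal]
    push_cast
    ring
  rw [e1, e2] at hpars
  have e3 : μ.real F = ∫ x, k x ^ 2 ∂μ := by exact_mod_cast hpars
  have hki : Integrable k μ := by
    have := hkL.integrable (by norm_num)
    have h2 := this.re
    simpa using h2
  have e4 : ∫ x, k x ^ 2 ∂μ ≤ ∫ x, (1 / 2) * k x ∂μ := by
    apply integral_mono_of_nonneg
    · exact Eventually.of_forall fun x => sq_nonneg _
    · exact hki.const_mul _
    · filter_upwards [hbound] with x hx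
      rw [sq]
      exact mul_le_mul_of_nonneg_right hx (hk0 x)
  have e5 : ∫ x, k x ∂μ = μ.real F := by
    have h1 := hkint (fun _ => 1)
    simp only [mul_one] at h1
    rw [integral_complex_ofReal, hnu_int _ continuous_const] at h1
    simp at h1
    exact_mod_cast h1
  rw [integral_const_mul, e5] at e4
  have e6 : 0 < μ.real F := by
    rw [Measure.real, ENNReal.toReal_pos_iff]
    exact ⟨hFpos, measure_lt_top μ F⟩
  linarith

end Pool.Agent.Y292
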