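import Pool.Agent.Y292.SpecC

/-!
A spectral self-affine measure has no exact overlaps.
-/

set_option autoImplicit false
open Filter Topology Matrix MeasureTheory
open scoped ENNReal

namespace Pool.Agent.Y292

variable {d : ℕ} {R : Matrix (Fin d) (Fin d) ℤ} {B : Finset (Fin d → ℤ)}

theorem tau_mem {T : Set (Fin d → ℝ)} (hR : Expanding R) (hTB : T = ⋃ b ∈ B, phi R b '' T) {n : ℕ}
    (w : Fin n → B) {x : Fin d → ℝ} (hx : x ∈ T) : tau R w x ∈ T := by
  induction n generalizing x with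
  | zero =>
    have hz : cst (0 : Fin d → ℤ) = 0 := by ext i; simp [cst]
    simpa [tau, tr, hz] using hx
  | succ n ih =>
    have e : w = (Fin.cons (w 0) (Fin.tail w) : Fin (n + 1) → B) := (Fin.cons_self_tail w).symm
    rw [e, tau_cons hR]
    apply ih
    rw [hTB]
    simp only [Set.mem_iUnion]
    exact ⟨(w 0 : Fin d → ℤ), (w 0).2, x, hx, rfl⟩

theorem measure_compl {μ : Measure (Fin d → ℝ)} [IsProbabilityMeasure μ] (hR : Expanding R)
    (h : SelfAff R B μ) {T : Set (Fin d → ℝ)} (hT : IsCompact T) (hTn : T.Nonempty)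
    (hTB : T = ⋃ b ∈ B, phi R b '' T) : μ Tᶜ = 0 := by
  obtain ⟨y0, hy0⟩ := hTn
  -- for every `δ` the set of points at distance at least `δ` is null
  have key : ∀ δ : ℝ, 0 < δ → μ {y | δ ≤ Metric.infDist y T} = 0 := by
    intro δ hδ
    set G := {y : Fin d → ℝ | δ ≤ Metric.infDist y T} with hG
    have hGm : MeasurableSet G :=
      (isClosed_le continuous_const (Metric.continuous_infDist_pt T)).measurableSet
    have h1 : ∀ m : ℕ, μ G ≤ μ {x | (m : ℝ) ≤ ‖x - y0‖} := by
      intro m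
      obtain ⟨N, hN⟩ := exists_contr hR (δ / (m + 1)) (by positivity)
      rw [h.rep hR N hGm]
      have hN0 := card_ne_zero h
      have hN' : (B.card : ENNReal) ≠ 0 := by exact_mod_cast hN0
      have hNt : (B.card : ENNReal) ≠ ⊤ := ENNReal.natCast_ne_top _
      calc ∑ w : Fin N → B, ((B.card : ENNReal)⁻¹) ^ N * μ (tau R w ⁻¹' G)
          ≤ ∑ w : Fin N → B, ((B.card : ENNReal)⁻¹) ^ N * μ {x | (m : ℝ) ≤ ‖x - y0‖} := by
            refine Finset.sum_le_sum fun w _ => ?_
            gcongr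
            intro x hx
            simp only [hG, Set.mem_preimage, Set.mem_ofPred_eq] at hx ⊢
            have h2 : Metric.infDist (tau R w x) T ≤ dist (tau R w x) (tau R w y0) :=
              Metric.infDist_le_dist_of_mem (tau_mem hR hTB w hy0)
            have h3 : dist (tau R w x) (tau R w y0) = ‖((rM R)⁻¹ ^ N) *ᵥ (x - y0)‖ := by
              rw [dist_eq_norm]
              unfold tau
              rw [← Matrix.mulVec_sub]
              congr 2
              abel
            have h4 := hN N le_rfl (x - y0)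
            have h5 : δ ≤ δ / (m + 1) * ‖x - y0‖ := hx.trans (h2.trans (h3.le.trans h4))
            have h6 : (m + 1 : ℝ) ≤ ‖x - y0‖ := by
              rw [div_mul_eq_mul_div, le_div_iff₀ (by positivity)] at h5
              exact le_of_mul_le_mul_left h5 hδ
            linarith
        _ = μ {x | (m : ℝ) ≤ ‖x - y0‖} := by
            rw [Finset.sum_const, Finset.card_univ, Fintype.card_fun, Fintype.card_coe,
              Fintype.card_fin, nsmul_eq_mul, ← mul_assoc]
            push_cast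
            rw [← mul_pow, ENNReal.mul_inv_cancel hN' hNt, one_pow, one_mul]
    have h2 : Tendsto (fun m : ℕ => μ {x : Fin d → ℝ | (m : ℝ) ≤ ‖x - y0‖}) atTop (𝓝 0) := by
      have h3 := tendsto_measure_iInter_atTop (μ := μ)
        (s := fun m : ℕ => {x : Fin d → ℝ | (m : ℝ) ≤ ‖x - y0‖})
        (fun m => (isClosed_le continuous_const
          (continuous_id.sub continuous_const).norm).measurableSet.nullMeasurableSet)
        (fun m m' hmm x hx => by
          simp only [Set.mem_ofPred_eq] at hx ⊢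
          exact (Nat.cast_le.2 hmm).trans hx)
        ⟨0, measure_ne_top _ _⟩
      have h4 : (⋂ m : ℕ, {x : Fin d → ℝ | (m : ℝ) ≤ ‖x - y0‖}) = ∅ := by
        ext x
        simp only [Set.mem_iInter, Set.mem_ofPred_eq, Set.mem_empty_iff_false, iff_false, not_forall,
          not_le]
        exact exists_nat_gt _
      rw [h4, measure_empty] at h3
      exact h3
    exact le_antisymm (ge_of_tendsto' h2 h1) zero_le
  have h2 : Tᶜ ⊆ ⋃ k : ℕ, {y | 1 / ((k : ℝ) + 1) ≤ Metric.infDist y T} := by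
    intro y hy
    have h3 : 0 < Metric.infDist y T :=
      (hT.isClosed.notMem_iff_infDist_pos ⟨y0, hy0⟩).1 hy
    obtain ⟨k, hk⟩ := exists_nat_one_div_lt h3
    exact Set.mem_iUnion.2 ⟨k, hk.le⟩
  exact measure_mono_null h2 (measure_iUnion_null fun k => key _ (by positivity))

/-- a linear functional separating finitely many pairs -/
theorem exists_functional {ι : Type*} [Finite ι] (v : ι → (Fin d → ℝ)) (hv : ∀ i, v i ≠ 0) :
    ∃ ℓ : Module.Dual ℝ (Fin d → ℝ), ∀ i, ℓ (v i) ≠ 0 := by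
  obtain ⟨ℓ, -, h⟩ := Module.Dual.exists_forall_mem_ne_zero_of_forall_exists
    (⊤ : Submodule ℝ (Module.Dual ℝ (Fin d → ℝ)))
    (fun i => Module.Dual.eval ℝ (Fin d → ℝ) (v i)) (by
      intro i
      by_contra hcon
      push Not at hcon
      apply hv i
      rw [← Module.forall_dual_apply_eq_zero_iff ℝ]
      intro f
      exact hcon f trivial)
  exact ⟨ℓ, fun i => h i⟩

theorem pow_mulVec_ne_zero (hR : Expanding R) (n k : ℕ) {z : Fin d → ℤ} (hz : z ≠ 0) :
    ((rM R)⁻¹ ^ n) *ᵥ cst ((R ^ k) *ᵥ z) ≠ 0 := by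
  intro h
  have h1 : (rM R) ^ n *ᵥ (((rM R)⁻¹ ^ n) *ᵥ cst ((R ^ k) *ᵥ z)) = 0 := by
    rw [h, Matrix.mulVec_zero]
  rw [Matrix.mulVec_mulVec, rM_pow_mul hR, Matrix.one_mulVec] at h1
  have h2 : cst ((R ^ k) *ᵥ z) = (rM R) ^ k *ᵥ cst z := by
    rw [cst_mulVec]
    congr 1
    simp only [rM]
    exact (RingHom.mapMatrix (Int.castRingHom ℝ)).map_pow R k
  rw [h2] at h1
  have h3 : ((rM R)⁻¹ ^ k) *ᵥ ((rM R) ^ k *ᵥ cst z) = 0 := by rw [h1, Matrix.mulVec_zero]
  rw [Matrix.mulVec_mulVec, mul_rM_pow hR, Matrix.one_mulVec] at h3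
  apply hz
  apply cst_injective
  rw [h3]
  ext i; simp [cst]

/-- for a suitable linear functional the maximum over the words of length `n` is attained by
exactly one word -/
theorem exists_unique_max (hR : Expanding R) (hB : B.Nonempty) (n : ℕ) :
    ∃ ℓ : Module.Dual ℝ (Fin d → ℝ), ∃ w0 : Fin n → B, ∀ w : Fin n → B, w ≠ w0 →
      ℓ (((rM R)⁻¹ ^ n) *ᵥ cst (tr R w)) < ℓ (((rM R)⁻¹ ^ n) *ᵥ cst (tr R w0)) := by
  classical
  obtain ⟨ℓ, hℓ⟩ := exists_functional
    (ι := {p : Fin n × B × B // p.2.1 ≠ p.2.2})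
    (fun p => ((rM R)⁻¹ ^ n) *ᵥ cst ((R ^ (p.1.1 : ℕ)) *ᵥ ((p.1.2.1 : Fin d → ℤ) - p.1.2.2)))
    (fun p => pow_mulVec_ne_zero hR n _ (by
      intro h
      apply p.2
      rw [sub_eq_zero] at h
      exact Subtype.ext h))
  -- the contribution of the `k`-th letter
  set c : Fin n → B → ℝ := fun k b =>
    ℓ (((rM R)⁻¹ ^ n) *ᵥ cst ((R ^ (k : ℕ)) *ᵥ (b : Fin d → ℤ))) with hc
  have cst_sub : ∀ a b : Fin d → ℤ, cst (a - b) = cst a - cst b := by
    intro a b; ext i; simp [cst]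
  have hcinj : ∀ k b b', b ≠ b' → c k b ≠ c k b' := by
    intro k b b' hbb h
    have h1 := hℓ ⟨(k, b, b'), hbb⟩
    apply h1
    simp only
    rw [Matrix.mulVec_sub, cst_sub, Matrix.mulVec_sub, map_sub, sub_eq_zero]
    exact h
  have cst_sum : ∀ f : Fin n → (Fin d → ℤ), cst (∑ k, f k) = ∑ k, cst (f k) := by
    intro f; ext i; simp [cst]
  have hsum : ∀ w : Fin n → B, ℓ (((rM R)⁻¹ ^ n) *ᵥ cst (tr R w)) = ∑ k, c k (w k) := by
    intro w
    unfold tr
    rw [cst_sum, Matrix.mulVec_sum, map_sum]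
  have : Nonempty B := ⟨⟨hB.choose, hB.choose_spec⟩⟩
  have hmax : ∀ k : Fin n, ∃ b : B, ∀ b' : B, c k b' ≤ c k b := fun k => Finite.exists_max (c k)
  choose w0 hw0 using hmax
  refine ⟨ℓ, w0, fun w hw => ?_⟩
  rw [hsum, hsum]
  obtain ⟨k, hk⟩ : ∃ k, w k ≠ w0 k := by
    by_contra hcon
    push Not at hcon
    exact hw (funext hcon)
  exact Finset.sum_lt_sum (fun k _ => hw0 k (w k))
    ⟨k, Finset.mem_univ k, lt_of_le_of_ne (hw0 k (w k)) (hcinj k _ _ hk)⟩

theorem injective_of_spectral {μ : Measure (Fin d → ℝ)} [IsProbabilityMeasure μ]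
    (hR : Expanding R) (h : SelfAff R B μ) (hs : Spectral μ) {T : Set (Fin d → ℝ)}
    (hT : IsCompact T) (hTn : T.Nonempty) (hTB : T = ⋃ b ∈ B, phi R b '' T) (n : ℕ) :
    Function.Injective (fun w : Fin n → B => tr R w) := by
  classical
  intro w1 w2 hw
  simp only at hw
  by_contra hne
  have hN := card_ne_zero h
  have hN' : (B.card : ENNReal) ≠ 0 := by exact_mod_cast hN
  have hNt : (B.card : ENNReal) ≠ ⊤ := ENNReal.natCast_ne_top _
  have hBn : B.Nonempty := Finset.card_ne_zero.1 hN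
  obtain ⟨ℓ, w0, hw0⟩ := exists_unique_max hR hBn n
  set g : (Fin n → B) → ℝ := fun w => ℓ (((rM R)⁻¹ ^ n) *ᵥ cst (tr R w)) with hg
  -- a gap
  obtain ⟨δ, hδ, hgap⟩ : ∃ δ : ℝ, 0 < δ ∧ ∀ w, w ≠ w0 → g w + δ ≤ g w0 := by
    have h1 : ∀ᶠ δ : ℝ in 𝓝[>] 0, ∀ w, w ≠ w0 → g w + δ ≤ g w0 := by
      rw [eventually_all]
      intro w
      by_cases hww : w = w0
      · exact Eventually.of_forall fun δ hcon => absurd hww hcon
      · have h2 : 0 < g w0 - g w := sub_pos.2 (hw0 w hww)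
        filter_upwards [Ioo_mem_nhdsGT h2] with δ hδ _
        linarith [hδ.2]
    obtain ⟨δ, h2, h3⟩ := (h1.and self_mem_nhdsWithin).exists
    exact ⟨δ, h3, h2⟩
  -- the functional `u = ℓ ∘ A ^ n`
  have hℓc : Continuous ℓ := LinearMap.continuous_of_finiteDimensional ℓ
  set u : (Fin d → ℝ) → ℝ := fun x => ℓ (((rM R)⁻¹ ^ n) *ᵥ x) with hu
  have huc : Continuous u := hℓc.comp (continuous_mulVec' _)
  obtain ⟨K, hK⟩ : ∃ K : ℝ, ∀ x ∈ T, u x ≤ K := by
    obtain ⟨C, hC⟩ := (hT.image huc).bddAbove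
    exact ⟨C, fun x hx => hC ⟨x, hx, rfl⟩⟩
  have hTc := measure_compl hR h hT hTn hTB
  have hmu : ∀ s : ℝ, MeasurableSet {x | s < u x} := fun s =>
    (isOpen_lt continuous_const huc).measurableSet
  have hex : ∃ j : ℕ, 0 < μ {x | K - j * δ < u x} := by
    by_contra hcon
    push Not at hcon
    have h1 : (Set.univ : Set (Fin d → ℝ)) ⊆ ⋃ j : ℕ, {x | K - j * δ < u x} := by
      intro x _
      obtain ⟨j, hj⟩ := exists_nat_gt ((K - u x) / δ)
      rw [div_lt_iff₀ hδ] at hj
      refine Set.mem_iUnion.2 ⟨j, ?_⟩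
      simp only [Set.mem_ofPred_eq]
      linarith
    have h2 := measure_mono_null h1 (measure_iUnion_null fun j => le_antisymm (hcon j) zero_le)
    rw [measure_univ] at h2
    exact one_ne_zero h2
  obtain ⟨s, hspos, hszero⟩ : ∃ s : ℝ, 0 < μ {x | s < u x} ∧ μ {x | s + δ < u x} = 0 := by
    set j0 := Nat.find hex with hj0
    have h1 := Nat.find_spec hex
    rw [← hj0] at h1
    have h0 : μ {x | K < u x} = 0 := by
      refine measure_mono_null ?_ hTc
      intro x hx hxT
      exact absurd (hK x hxT) (not_le.2 hx)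
    rcases Nat.eq_zero_or_pos j0 with h2 | h2
    · rw [h2] at h1
      simp only [Nat.cast_zero, zero_mul, sub_zero] at h1
      rw [h0] at h1
      exact absurd h1 (lt_irrefl _)
    · refine ⟨K - j0 * δ, h1, ?_⟩
      have h3 := Nat.find_min hex (m := j0 - 1) (by omega)
      rw [not_lt] at h3
      have h4 := le_antisymm h3 zero_le
      convert h4 using 3
      ext x
      have h5 : ((j0 - 1 : ℕ) : ℝ) = (j0 : ℝ) - 1 := by
        rw [Nat.cast_sub h2]; simp
      rw [h5]
      constructor <;> intro h6 <;> linarith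
  -- the exposed region
  set F : Set (Fin d → ℝ) := {y | s + g w0 < ℓ y} with hF
  have hFm : MeasurableSet F := (isOpen_lt continuous_const hℓc).measurableSet
  have htau : ∀ (w : Fin n → B) (x : Fin d → ℝ), ℓ (tau R w x) = u x + g w := by
    intro w x
    unfold tau
    rw [Matrix.mulVec_add, map_add]
  have hother : ∀ w, w ≠ w0 → ∀ G ⊆ F, μ (tau R w ⁻¹' G) = 0 := by
    intro w hww G hG
    refine measure_mono_null ?_ hszero
    intro x hx
    have h1 : s + g w0 < ℓ (tau R w x) := hG hx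
    rw [htau] at h1
    have h2 := hgap w hww
    simp only [Set.mem_ofPred_eq]
    linarith
  have hFG : ∀ G, MeasurableSet G → G ⊆ F → μ G = ((B.card : ENNReal)⁻¹) ^ n * μ (tau R w0 ⁻¹' G) := by
    intro G hG hGF
    rw [h.rep hR n hG]
    rw [Finset.sum_eq_single w0]
    · intro w _ hww
      rw [hother w hww G hGF, mul_zero]
    · intro hcon; exact absurd (Finset.mem_univ w0) hcon
  have hFpos : 0 < μ F := by
    rw [hFG F hFm le_rfl]
    have h1 : tau R w0 ⁻¹' F = {x | s < u x} := by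
      ext x
      simp only [hF, Set.mem_preimage, Set.mem_ofPred_eq, htau]
      constructor <;> intro h6 <;> linarith
    rw [h1]
    exact ENNReal.mul_pos (pow_ne_zero _ (ENNReal.inv_ne_zero.2 hNt)) hspos.ne'
  refine no_doubling hs hFm hFpos
    (((rM R)⁻¹ ^ n) *ᵥ (cst (tr R w1)) - ((rM R)⁻¹ ^ n) *ᵥ (cst (tr R w0))) ?_
  intro G hG hGF
  set a := ((rM R)⁻¹ ^ n) *ᵥ (cst (tr R w1)) - ((rM R)⁻¹ ^ n) *ᵥ (cst (tr R w0)) with ha
  have hms : Measurable (fun x : Fin d → ℝ => x - a) := measurable_id.sub_const a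
  have hpre : ∀ w : Fin n → B, tr R w = tr R w1 → tau R w ⁻¹' ((fun y => y - a) ⁻¹' G) = tau R w0 ⁻¹' G := by
    intro w hww
    ext x
    simp only [Set.mem_preimage]
    have : tau R w x - a = tau R w0 x := by
      unfold tau
      rw [hww, ha, Matrix.mulVec_add, Matrix.mulVec_add]
      abel
    rw [this]
  rw [h.rep hR n (hms hG), hFG G hG hGF]
  calc 2 * (((B.card : ENNReal)⁻¹) ^ n * μ (tau R w0 ⁻¹' G))
      = ∑ w ∈ ({w1, w2} : Finset (Fin n → B)),
          ((B.card : ENNReal)⁻¹) ^ n * μ (tau R w ⁻¹' ((fun y => y - a) ⁻¹' G)) := by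
        rw [Finset.sum_pair hne, hpre w1 rfl, hpre w2 hw.symm, two_mul]
    _ ≤ _ := Finset.sum_le_sum_of_subset (Finset.subset_univ _)

end Pool.Agent.Y292
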